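import Pool.Agent.helper27.PC2.Stmt2
import Pool.Agent.helper68.PC.TR

/-!
# PC project, second half: HOMQ, every algebra with generators satisfying the relations is a quotient of the
algebra of block matrices
-/

namespace Pool.Agent.helper27.PC

open Module Polynomial

/-- what is used of the values of the Jucys-Murphy elements -/
structure HX {K : Type*} [Field K] (v : K) (x : Lab → K) : Prop where
  v0 : v ≠ 0
  ne : ∀ l, x l ≠ 0
  inj : ∀ {l l' : Lab}, x l = x l' → l = l'
  up : ∀ {l : Lab}, x (up 1 l) = v ^ 2 * x l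

/-- the operator of the generator number `i` -/
noncomputable def hop {K : Type*} [Field K] (v : K) (x : Lab → K) : ℕ → Module.End K (List Lab →₀ K)
  | 0 => Xop x 0
  | i + 1 => Top v x i

section coeff

variable {K : Type*} [Field K] {v : K} {x : Lab → K}

theorem HOMQ_cA (hx : HX v x) (a b : Lab) (hab : a ≠ b) :
    cA v x a b = (v - v⁻¹) * x b / (x b - x a) := by
  have hb := hx.ne b
  have h1 : x b - x a ≠ 0 := sub_ne_zero.mpr fun h => hab (hx.inj h).symm
  have h2 : 1 - x a / x b ≠ 0 := by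
    intro h
    apply h1
    have h3 := (div_eq_one_iff_eq hb).mp (sub_eq_zero.mp h).symm
    rw [h3, sub_self]
  unfold cA
  field_simp

theorem HOMQ_cB (hx : HX v x) (a b : Lab) (hab : a ≠ b) (h : b ≠ up 1 a) :
    cB v x a b = (v * x b - v⁻¹ * x a) / (x b - x a) := by
  have h1 : x b - x a ≠ 0 := sub_ne_zero.mpr fun h => hab (hx.inj h).symm
  have hv := hx.v0
  unfold cB
  rw [if_neg h, HOMQ_cA hx a b hab]
  field_simp
  ring

theorem HOMQ_cB_zero (hx : HX v x) (b : Lab) : cB v x (up 1 b) b = 0 := by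
  have hv := hx.v0
  have h : b ≠ up 1 (up 1 b) := by
    intro h
    have := congrArg Prod.snd h
    simp only [up] at this
    omega
  rw [HOMQ_cB hx _ _ (SURJ_up_ne b) h, hx.up]
  rw [div_eq_zero_iff]
  left
  field_simp
  ring

theorem HOMQ_cB_ne (hx : HX v x) (a b : Lab) (hab : a ≠ b) (h : b ≠ up 1 a)
    (h' : a ≠ up 1 b) : cB v x a b ≠ 0 := by
  have h1 : x b - x a ≠ 0 := sub_ne_zero.mpr fun h => hab (hx.inj h).symm
  have hv := hx.v0
  rw [HOMQ_cB hx a b hab h]
  intro h0
  rw [div_eq_zero_iff] at h0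
  rcases h0 with h0 | h0
  · apply h'
    apply hx.inj
    rw [hx.up]
    field_simp at h0
    linear_combination -h0
  · exact h1 h0

theorem HOMQ_quad (hx : HX v x) (a b : Lab) (hab : a ≠ b) :
    cB v x a b * cB v x b a =
      1 + (v - v⁻¹) * cA v x a b - cA v x a b ^ 2 := by
  have h1 : x b - x a ≠ 0 := sub_ne_zero.mpr fun h => hab (hx.inj h).symm
  have h2 : x a - x b ≠ 0 := sub_ne_zero.mpr fun h => hab (hx.inj h)
  have hv := hx.v0
  have key : 1 + (v - v⁻¹) * cA v x a b - cA v x a b ^ 2 =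
      ((v * x b - v⁻¹ * x a) / (x b - x a)) *
      ((v * x a - v⁻¹ * x b) / (x a - x b)) := by
    rw [HOMQ_cA hx a b hab]
    have h3 : x a - x b = -(x b - x a) := by ring
    rw [h3]
    field_simp
    ring
  rw [key]
  by_cases h : b = up 1 a
  · subst h
    have e1 : cB v x a (up 1 a) = 0 := by simp [cB]
    rw [e1, zero_mul, hx.up]
    have : v * x a - v⁻¹ * (v ^ 2 * x a) = 0 := by field_simp; ring
    rw [this]; simp
  · by_cases h' : a = up 1 b
    · subst h'
      have e1 : cB v x b (up 1 b) = 0 := by simp [cB]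
      rw [e1, mul_zero, hx.up]
      have : v * x b - v⁻¹ * (v ^ 2 * x b) = 0 := by field_simp; ring
      rw [this]; simp
    · rw [HOMQ_cB hx a b hab h, HOMQ_cB hx b a hab.symm h']

theorem HOMQ_lin (hx : HX v x) (a b : Lab) (hab : a ≠ b) :
    cA v x a b * x a + cA v x b a * x b = 0 := by
  have h1 : x b - x a ≠ 0 := sub_ne_zero.mpr fun h => hab (hx.inj h).symm
  rw [HOMQ_cA hx a b hab, HOMQ_cA hx b a hab.symm]
  have h3 : x a - x b = -(x b - x a) := by ring
  rw [h3]
  field_simp
  ring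

end coeff

section ops

variable {K : Type*} [Field K] {v : K} {x : Lab → K}

theorem HOMQ_TXT (hx : HX v x) (u : List Lab) (a b : Lab) (z : List Lab)
    (hab : a ≠ b) :
    Top v x u.length (Xop x u.length (Top v x u.length
      (Finsupp.single (u ++ a :: b :: z) 1))) =
      Finsupp.single (u ++ a :: b :: z) (x b) := by
  rw [SURJ_Top, map_add, SURJ_Xop, SURJ_Xop, map_add]
  have e1 : ((u ++ a :: b :: z)[u.length]?).elim 0 x = x a := by simp
  have e2 : ((u ++ b :: a :: z)[u.length]?).elim 0 x = x b := by simp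
  rw [e1, e2, SURJ_Top, SURJ_Top]
  have h1 := HOMQ_quad hx a b hab
  have h2 := HOMQ_lin hx a b hab
  have h1v : x b - x a ≠ 0 := sub_ne_zero.mpr fun h => hab (hx.inj h).symm
  have h3 := HOMQ_cA hx a b hab
  have h4 : (v - v⁻¹) * x b = cA v x a b * (x b - x a) := by
    rw [h3]; field_simp
  have c1 : 1 * cA v x a b * x a * cA v x a b +
      1 * cB v x a b * x b * cB v x b a = x b := by
    linear_combination (x b) * h1 + (cA v x a b) * h4
  have c2 : 1 * cA v x a b * x a * cB v x a b +
      1 * cB v x a b * x b * cA v x b a = 0 := by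
    linear_combination (cB v x a b) * h2
  rw [show ∀ p q r s : List Lab →₀ K, p + q + (r + s) = (p + s) + (q + r) from
    fun p q r s => by abel]
  rw [← Finsupp.single_add, ← Finsupp.single_add, c1, c2, Finsupp.single_zero, add_zero]

/-- the operators preserve the words -/
theorem HOMQ_pres (hx : HX v x) (n : ℕ) (S : St) (i : ℕ) (hi : i + 1 < n) :
    ∀ w ∈ allPaths n S, ∀ w', (Top v x i (Finsupp.single w 1)) w' ≠ 0 →
      w' ∈ allPaths n S := by
  intro w hw w' h
  obtain ⟨u, a, b, z, rfl, rfl, hab⟩ := SURJ_decomp n S w hw i hi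
  rw [SURJ_Top, Finsupp.add_apply] at h
  by_cases h1 : w' = u ++ a :: b :: z
  · rw [h1]; exact hw
  · by_cases h2 : w' = u ++ b :: a :: z
    · rw [h2]
      obtain ⟨S', hS⟩ := (SURJ_mem_all _ _ _).mp hw
      by_cases h3 : b = up 1 a
      · exfalso
        apply h
        subst h3
        rw [Finsupp.single_apply, if_neg (Ne.symm h1)]
        simp [cB]
      · by_cases h4 : a = up 1 b
        · exfalso
          apply h
          subst h4
          rw [HOMQ_cB_zero hx, Finsupp.single_apply, if_neg (Ne.symm h1)]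
          simp
        · exact (SURJ_mem_all _ _ _).mpr ⟨S', SURJ_swap u n S S' a b z h3 h4 hS⟩
    · exfalso
      apply h
      rw [Finsupp.single_apply, Finsupp.single_apply, if_neg (Ne.symm h1), if_neg (Ne.symm h2),
        add_zero]

theorem HOMQ_X_succ (hx : HX v x) (n : ℕ) (S : St) (i : ℕ) (hi : i + 1 < n) :
    mat n S (Xop x (i + 1)) = mat n S (hop v x (i + 1)) * mat n S (Xop x i) *
      mat n S (hop v x (i + 1)) := by
  have h1 : mat n S (hop v x (i + 1) * Xop x i * hop v x (i + 1)) =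
      mat n S (hop v x (i + 1)) * mat n S (Xop x i) * mat n S (hop v x (i + 1)) := by
    rw [SURJ_mat_mul n S (hop v x (i + 1) * Xop x i) (hop v x (i + 1))
      (HOMQ_pres hx n S i hi), SURJ_mat_mul n S _ _ (SURJ_presX _ n S i)]
  rw [← h1]
  ext w w'
  unfold mat
  obtain ⟨u, a, b, z, hw, rfl, hab⟩ := SURJ_decomp n S w'.1 w'.2 i hi
  rw [Module.End.mul_apply, Module.End.mul_apply, hw]
  have h2 := HOMQ_TXT hx u a b z hab
  simp only [hop]
  rw [h2, SURJ_Xop, one_mul]
  have : ((u ++ a :: b :: z)[u.length + 1]?).elim 0 x = x b := by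
    rw [List.getElem?_append_right (by omega)]
    simp
  rw [this]

/-- diagonal functions in the algebra -/
theorem HOMQ_diag (hx : HX v x) (n : ℕ) (hn : 1 ≤ n) (S : St) : ∀ i < n,
    mat n S (Xop x i) ∈ Algebra.adjoin K ((fun i => mat n S (hop v x i)) '' {i | i < n})
  | 0, hi => Algebra.subset_adjoin ⟨0, hi, rfl⟩
  | i + 1, hi => by
      rw [HOMQ_X_succ hx n S i hi]
      have h1 : mat n S (hop v x (i + 1)) ∈
        Algebra.adjoin K ((fun i => mat n S (hop v x i)) '' {i | i < n}) :=
        Algebra.subset_adjoin ⟨i + 1, hi, rfl⟩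
      exact mul_mem (mul_mem h1 (HOMQ_diag hx n hn S i (by omega))) h1

theorem HOMQ_single (hx : HX v x) (n : ℕ) (hn : 1 ≤ n) (S : St) (w : allPaths n S) :
    Matrix.single w w (1 : K) ∈
      Algebra.adjoin K ((fun i => mat n S (hop v x i)) '' {i | i < n}) := by
  classical
  set 𝒜 := Algebra.adjoin K ((fun i => mat n S (hop v x i)) '' {i | i < n}) with hA
  set B : Subalgebra K (allPaths n S → K) := 𝒜.comap (Matrix.diagonalAlgHom K) with hB
  have hf : ∀ i < n, (fun w : allPaths n S => (w.1[i]?).elim 0 x) ∈ B := by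
    intro i hi
    rw [hB, Subalgebra.mem_comap]
    have := HOMQ_diag hx n hn S i hi
    rw [SURJ_matX] at this
    exact this
  have hsep : ∀ w' : allPaths n S, w' ≠ w → ∃ i, i < n ∧
      ((w.1[i]?).elim 0 x) - ((w'.1[i]?).elim 0 x) ≠ 0 := by
    intro w' hne
    by_contra hcon
    push Not at hcon
    apply hne
    apply Subtype.ext
    obtain ⟨S₁, h1⟩ := (SURJ_mem_all n S w.1).mp w.2
    obtain ⟨S₂, h2⟩ := (SURJ_mem_all n S w'.1).mp w'.2
    have l1 := SURJ_length _ _ _ _ h1
    have l2 := SURJ_length _ _ _ _ h2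
    apply List.ext_getElem (by omega)
    intro i hi hi'
    have h3 := hcon i (by omega)
    rw [sub_eq_zero, List.getElem?_eq_getElem hi, List.getElem?_eq_getElem hi'] at h3
    exact (hx.inj h3).symm
  choose! c hc using hsep
  have hprod : (Pi.single w 1 : allPaths n S → K) = ∏ w' ∈ Finset.univ.erase w,
      ((((w.1[c w']?).elim 0 x) - ((w'.1[c w']?).elim 0 x))⁻¹ •
        ((fun w : allPaths n S => (w.1[c w']?).elim 0 x) -
          algebraMap K (allPaths n S → K) ((w'.1[c w']?).elim 0 x))) := by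
    funext w''
    rw [Finset.prod_apply]
    by_cases h : w'' = w
    · subst h
      rw [Pi.single_eq_same, eq_comm]
      refine Finset.prod_eq_one fun w' hw' => ?_
      have hne := (hc w' (Finset.ne_of_mem_erase hw')).2
      simp only [Pi.smul_apply, Pi.sub_apply, Pi.algebraMap_apply, Algebra.algebraMap_self,
        RingHom.id_apply, smul_eq_mul]
      exact inv_mul_cancel₀ hne
    · rw [Pi.single_eq_of_ne h, eq_comm]
      refine Finset.prod_eq_zero (Finset.mem_erase.mpr ⟨h, Finset.mem_univ w''⟩) ?_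
      simp
  have hmem : (Pi.single w 1 : allPaths n S → K) ∈ B := by
    rw [hprod]
    refine Subalgebra.prod_mem _ fun w' hw' => ?_
    have h1 := (hc w' (Finset.ne_of_mem_erase hw')).1
    exact Subalgebra.smul_mem _ (sub_mem (hf _ h1) (Subalgebra.algebraMap_mem _ _)) _
  rw [hB, Subalgebra.mem_comap] at hmem
  have : Matrix.diagonalAlgHom K (Pi.single w 1 : allPaths n S → K) = Matrix.single w w (1 : K) :=
    Matrix.diagonal_single w 1
  rw [this] at hmem
  exact hmem

end ops

theorem HOMQ_all {K : Type*} [Field K] {v : K} {x : Lab → K} (hx : HX v x) (n : ℕ) (hn : 1 ≤ n) (S : St)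
    (M : Matrix (allPaths n S) (allPaths n S) K)
    (hM : ∀ w w', (∀ S', ¬ (w.1 ∈ paths n S S' ∧ w'.1 ∈ paths n S S')) → M w w' = 0) :
    M ∈ Algebra.adjoin K ((fun i => mat n S (hop v x i)) '' {i | i < n}) := by
  set 𝒜 := Algebra.adjoin K ((fun i => mat n S (hop v x i)) '' {i | i < n}) with hA
  have hE := HOMQ_single hx n hn S
  -- one exchange
  have hswp : ∀ w w' : allPaths n S, Swp w.1 w'.1 → Matrix.single w' w (1 : K) ∈ 𝒜 := by
    rintro w w' ⟨u, a, b, z, hw, hw', h1, h2⟩
    obtain ⟨S', hS⟩ := (SURJ_mem_all n S w.1).mp w.2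
    have hl := SURJ_length _ _ _ _ hS
    rw [hw] at hl hS
    have hab := SURJ_ne u n S S' a b z hS
    simp only [List.length_append, List.length_cons] at hl
    have hi : u.length + 1 < n := by omega
    have hT : mat n S (hop v x (u.length + 1)) ∈ 𝒜 :=
      Algebra.subset_adjoin ⟨u.length + 1, hi, rfl⟩
    have hne : u ++ a :: b :: z ≠ u ++ b :: a :: z := by
      intro h
      have := List.append_cancel_left h
      simp only [List.cons.injEq] at this
      exact hab this.1
    have hent : mat n S (hop v x (u.length + 1)) w' w = cB v x a b := by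
      unfold mat
      simp only [hop]
      rw [hw, hw', SURJ_Top, Finsupp.add_apply, Finsupp.single_apply, Finsupp.single_apply,
        if_neg hne, if_pos rfl, zero_add, one_mul]
    have h3 : Matrix.single w' w' (1 : K) * mat n S (hop v x (u.length + 1)) *
        Matrix.single w w (1 : K) = Matrix.single w' w (cB v x a b) := by
      rw [Matrix.single_mul_mul_single, hent, one_mul, mul_one]
    have h4 : Matrix.single w' w (cB v x a b) ∈ 𝒜 := by
      rw [← h3]; exact mul_mem (mul_mem (hE w') hT) (hE w)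
    have h5 := Subalgebra.smul_mem _ h4 (cB v x a b)⁻¹
    rw [Matrix.smul_single, smul_eq_mul, inv_mul_cancel₀ (HOMQ_cB_ne hx a b hab h1 h2)] at h5
    exact h5
  -- chains of exchanges
  have hchain : ∀ (S' : St) (w₀ : List Lab) (h₀ : w₀ ∈ paths n S S') (w₁ : List Lab),
      Relation.ReflTransGen Swp w₀ w₁ → ∀ h₁ : w₁ ∈ paths n S S',
      Matrix.single (⟨w₁, (SURJ_mem_all _ _ _).mpr ⟨S', h₁⟩⟩ : allPaths n S)
        (⟨w₀, (SURJ_mem_all _ _ _).mpr ⟨S', h₀⟩⟩ : allPaths n S) (1 : K) ∈ 𝒜 := by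
    intro S' w₀ h₀ w₁ h
    induction h with
    | refl => intro h₁; exact hE _
    | tail hh hs ih =>
        intro h₁
        have hmid := SURJ_mem_trans n S S' _ _ hh h₀
        have h1 := ih hmid
        have h2 := hswp ⟨_, (SURJ_mem_all _ _ _).mpr ⟨S', hmid⟩⟩
          ⟨_, (SURJ_mem_all _ _ _).mpr ⟨S', h₁⟩⟩ hs
        have h3 := mul_mem h2 h1
        rw [Matrix.single_mul_single_same, one_mul] at h3
        exact h3
  rw [Matrix.matrix_eq_sum_single M]
  refine Subalgebra.sum_mem _ fun w _ => Subalgebra.sum_mem _ fun w' _ => ?_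
  by_cases h : ∃ S', w.1 ∈ paths n S S' ∧ w'.1 ∈ paths n S S'
  · obtain ⟨S', h1, h2⟩ := h
    have h3 := hchain S' w'.1 h2 w.1 (SURJ_conn n S S' w'.1 w.1 h2 h1) h1
    have h4 := Subalgebra.smul_mem _ h3 (M w w')
    rw [Matrix.smul_single, smul_eq_mul, mul_one] at h4
    exact h4
  · push Not at h
    rw [hM w w' (fun S' hS => h S' hS.1 hS.2), Matrix.single_zero]
    exact Subalgebra.zero_mem _


theorem HOMQ_hx {K : Type*} [Field K] {Q v : K} (hg : GenQ Q v) (m : ℕ) : HX v (xQ Q v m) := by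
  obtain ⟨hQ, hv, h1, h2⟩ := hg
  refine ⟨hv, ?_, ?_, ?_⟩
  · intro l
    unfold xQ
    refine mul_ne_zero ?_ (zpow_ne_zero _ hv)
    split_ifs
    · exact hQ
    · exact neg_ne_zero.mpr (inv_ne_zero hQ)
  · intro l l' h
    have key : ∀ a b : ℤ, v ^ a = v ^ b → a = b := by
      intro a b hab
      by_contra hne
      apply h1 (a - b) (sub_ne_zero.mpr hne)
      rw [zpow_sub₀ hv, hab, div_self (zpow_ne_zero _ hv)]
    have key2 : ∀ a b : ℤ, Q * v ^ (2 * a) ≠ -Q⁻¹ * v ^ (2 * b) := by
      intro a b hab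
      apply h2 (a - b)
      have hvb : v ^ (2 * b) ≠ 0 := zpow_ne_zero _ hv
      have e : v ^ (2 * (a - b)) = v ^ (2 * a) / v ^ (2 * b) := by
        rw [← zpow_sub₀ hv]; congr 1; ring
      rw [e]
      have h3 : Q ^ 2 * v ^ (2 * a) = -v ^ (2 * b) := by
        have h4 : Q * (Q * v ^ (2 * a)) = Q * (-Q⁻¹ * v ^ (2 * b)) := by rw [hab]
        have h5 : Q * (-Q⁻¹ * v ^ (2 * b)) = -v ^ (2 * b) := by field_simp
        rw [h5] at h4
        rw [← h4]; ring
      rw [mul_div_assoc', h3, neg_div, div_self hvb]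
    obtain ⟨b, k⟩ := l
    obtain ⟨b', k'⟩ := l'
    unfold xQ at h
    cases b <;> cases b' <;> simp only [if_true, if_false, Bool.false_eq_true] at h
    · have h3 := mul_left_cancel₀ (neg_ne_zero.mpr (inv_ne_zero hQ)) h
      have := key _ _ h3
      rw [Prod.mk.injEq]; exact ⟨rfl, by omega⟩
    · exact absurd h.symm (key2 _ _)
    · exact absurd h (key2 _ _)
    · have h3 := mul_left_cancel₀ hQ h
      have := key _ _ h3
      rw [Prod.mk.injEq]; exact ⟨rfl, by omega⟩
  · intro l
    unfold xQ up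
    have : (2 * (((l.2 + 1 : ℕ) : ℤ) + 1 - m)) = 2 * ((l.2 : ℤ) + 1 - m) + 2 := by push_cast; ring
    simp only [this, zpow_add₀ hv]
    norm_cast
    ring

theorem HOMQ_op {K : Type*} [Field K] (Q v : K) (m i : ℕ) : opQ Q v m i = hop v (xQ Q v m) i := by
  cases i <;> rfl

theorem HOMQ_prod {K R R' : Type*} [CommRing K] [Ring R] [Ring R'] [Algebra K R]
    [Algebra K R'] (c₀ c : K) (n : ℕ) (τ : ℕ → R) (τ' : ℕ → R') (h : RelQ c₀ c n τ)
    (h' : RelQ c₀ c n τ') : RelQ c₀ c n fun i => (τ i, τ' i) where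
  quad0 hn := Prod.ext (h.quad0 hn) (h'.quad0 hn)
  quad i hi hi' := Prod.ext (h.quad i hi hi') (h'.quad i hi hi')
  braid i hi hi' := Prod.ext (h.braid i hi hi') (h'.braid i hi hi')
  braid0 hn := Prod.ext (h.braid0 hn) (h'.braid0 hn)
  comm i j hi hj := Prod.ext (h.comm i j hi hj) (h'.comm i j hi hj)

/-- every algebra with generators satisfying the relations is a quotient of the algebra of block matrices -/
theorem HOMQ (hDIM : DIMQ_stmt) (hREP : REPQ_stmt) (hCNT : CNT_stmt) : HOMQ_stmt := by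
  classical
  intro K _ Q v hg n m hn hm R _ _ τ hτ
  set S := vac m with hS
  set N := 2 ^ n * n.factorial with hN
  have hx := HOMQ_hx hg m
  have hrel2 := (hREP K Q v hg n m hn hm).1
  set t : ℕ → Matrix (allPaths n S) (allPaths n S) K × R :=
    fun i => (mat n S (opQ Q v m i), τ i) with ht
  have hrel : RelQ (Q - Q⁻¹) (v - v⁻¹) n t := HOMQ_prod _ _ _ _ _ hrel2 hτ
  obtain ⟨hDfin, hDdim⟩ := hDIM K _ (Q - Q⁻¹) (v - v⁻¹) n t hrel
  set D := Algebra.adjoin K (t '' {i | i < n}) with hD
  have htD : ∀ i < n, t i ∈ D := fun i hi => Algebra.subset_adjoin ⟨i, hi, rfl⟩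
  set p1 : D →ₐ[K] Matrix (allPaths n S) (allPaths n S) K := (AlgHom.fst K _ _).comp D.val
    with hp1
  set p2 : D →ₐ[K] R := (AlgHom.snd K _ _).comp D.val with hp2
  have hp1t : ∀ i (hi : i < n), p1 ⟨t i, htD i hi⟩ = mat n S (opQ Q v m i) := fun i hi => rfl
  have hp2t : ∀ i (hi : i < n), p2 ⟨t i, htD i hi⟩ = τ i := fun i hi => rfl
  set e : allPaths n S → St := fun w => TR_E n S w.1 with he
  have hsub : LinearMap.range (TR_J (K := K) e) ≤ LinearMap.range p1.toLinearMap := by
    rintro _ ⟨f, rfl⟩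
    have h1 : TR_J (K := K) e f ∈
        Algebra.adjoin K ((fun i => mat n S (hop v (xQ Q v m) i)) '' {i | i < n}) := by
      refine HOMQ_all hx n hn S _ ?_
      intro w w' hw
      simp only [TR_J, LinearMap.coe_mk, AddHom.coe_mk]
      rw [dif_neg]
      intro h
      refine hw (TR_E n S w.1) ⟨TR_E_mem n S w.1 w.2, ?_⟩
      have h' : TR_E n S w.1 = TR_E n S w'.1 := h
      rw [h']
      exact TR_E_mem n S w'.1 w'.2
    have h2 : Algebra.adjoin K ((fun i => mat n S (hop v (xQ Q v m) i)) '' {i | i < n}) ≤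
        p1.range := by
      refine Algebra.adjoin_le ?_
      rintro _ ⟨i, hi, rfl⟩
      refine ⟨⟨t i, htD i hi⟩, ?_⟩
      change mat n S (opQ Q v m i) = mat n S (hop v (xQ Q v m) i)
      rw [HOMQ_op]
    obtain ⟨d, hd⟩ := h2 h1
    exact ⟨d, hd⟩
  have hcard : finrank K (LinearMap.range (TR_J (K := K) e)) = N := by
    rw [LinearMap.finrank_range_of_inj (TR_J_inj e), finrank_fintype_fun_eq_card,
      Fintype.card_subtype, Finset.card_filter, ← Finset.univ_product_univ, Finset.sum_product]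
    have h1 := TR_sum (R := ℕ) n S (fun _ => 1) (fun _ => 1)
    have h2 : ∀ x y : allPaths n S, (if e (x, y).1 = e (x, y).2 then 1 else 0) =
        (if TR_E n S x.1 = TR_E n S y.1 then 1 * 1 else 0) := fun x y => rfl
    simp only [h2]
    rw [h1, hN, ← hCNT n m hm]
    refine Finset.sum_congr rfl fun S' _ => ?_
    simp [sq, hS]
  have hle1 : finrank K (LinearMap.range p1.toLinearMap) ≤ finrank K D :=
    LinearMap.finrank_range_le _
  have hle2 : N ≤ finrank K (LinearMap.range p1.toLinearMap) := by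
    rw [← hcard]; exact Submodule.finrank_mono hsub
  have hrank : finrank K (LinearMap.range p1.toLinearMap) = N := by omega
  have hdimD : finrank K D = N := by omega
  have hrange : LinearMap.range (TR_J (K := K) e) = LinearMap.range p1.toLinearMap :=
    Submodule.eq_of_le_of_finrank_eq hsub (by rw [hcard, hrank])
  have hinj1 : Function.Injective p1 := by
    have h1 := LinearMap.finrank_range_add_finrank_ker p1.toLinearMap
    rw [hrank, hdimD] at h1
    have h2 : finrank K (LinearMap.ker p1.toLinearMap) = 0 := by omega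
    have h3 := Submodule.finrank_eq_zero.mp h2
    exact LinearMap.ker_eq_bot.mp h3
  set E : D ≃ₗ[K] LinearMap.range p1.toLinearMap :=
    LinearEquiv.ofInjective p1.toLinearMap hinj1 with hE
  set π : Matrix (allPaths n S) (allPaths n S) K →ₗ[K] LinearMap.range p1.toLinearMap :=
    (TR_J e ∘ₗ TR_R e).codRestrict _ (fun M => by rw [← hrange]; exact ⟨TR_R e M, rfl⟩) with hπ
  set φ : Matrix (allPaths n S) (allPaths n S) K →ₗ[K] R :=
    p2.toLinearMap ∘ₗ E.symm.toLinearMap ∘ₗ π with hφ
  have hφp : ∀ d : D, φ (p1 d) = p2 d := by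
    intro d
    have h1 : π (p1 d) = E d := by
      apply Subtype.ext
      change TR_J e (TR_R e (p1 d)) = p1 d
      obtain ⟨f, hf⟩ : p1 d ∈ LinearMap.range (TR_J (K := K) e) := by
        rw [hrange]; exact ⟨d, rfl⟩
      rw [← hf, TR_RJ]
    change p2 (E.symm (π (p1 d))) = p2 d
    rw [h1, LinearEquiv.symm_apply_apply]
  have hblk : ∀ M, IsBlk n S M → ∃ d : D, p1 d = M := by
    intro M hM
    have h1 : TR_J e (TR_R e M) = M := by
      ext i j
      rw [TR_JR]
      split_ifs with h
      · rfl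
      · symm
        refine hM i j fun S' hS' => h ?_
        change TR_E n S i.1 = TR_E n S j.1
        rw [TR_E_eq n S S' _ hS'.1, TR_E_eq n S S' _ hS'.2]
    have h2 : M ∈ LinearMap.range p1.toLinearMap := by
      rw [← hrange, ← h1]; exact ⟨_, rfl⟩
    obtain ⟨d, hd⟩ := h2
    exact ⟨d, hd⟩
  refine ⟨φ, ?_, ?_, ?_⟩
  · have h1 : p1 1 = 1 := map_one p1
    have h2 : p2 1 = 1 := map_one p2
    have h3 := hφp 1
    rw [h1, h2] at h3
    exact h3
  · intro M M' hM hM'
    obtain ⟨d, rfl⟩ := hblk M hM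
    obtain ⟨d', rfl⟩ := hblk M' hM'
    rw [← map_mul, hφp, hφp, hφp, map_mul]
  · intro i hi
    rw [← hp1t i hi, hφp, hp2t i hi]

end Pool.Agent.helper27.PC
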