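import Pool.Agent.helper27.PC2.Stmt2

/-!
# PC project, second half: ONE, the exceptional type `(1, 1)`
-/

namespace Pool.Agent.helper27.PC

open Module Polynomial

/-! ### one step operators -/

section one

variable {R : Type} [CommRing R]

theorem ONE_cnt (S : St) (l : Lab) : cnt S l 1 = 0 := by
  unfold cnt
  rw [Finset.card_eq_zero, Finset.filter_eq_empty_iff]
  intro y _ h
  omega

theorem ONE_rib (w : Lab → R) (S : St) (c : R) :
    Rib w 1 (Finsupp.single S c) = ∑ l ∈ addable 1 S, Finsupp.single (move 1 S l) (c * w l) := by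
  unfold Rib
  rw [Finsupp.linearCombination_single, Finset.smul_sum]
  refine Finset.sum_congr rfl fun l _ => ?_
  rw [ONE_cnt, pow_zero, one_mul, Finsupp.smul_single, smul_eq_mul]

/-- beads that can be lowered by one place -/
def ONE_low (S : St) : Finset Lab := S.filter fun y => 1 ≤ y.2 ∧ dn 1 y ∉ S

theorem ONE_Low (w : Lab → R) (S : St) (c : R) :
    Low w 1 (Finsupp.single S c) =
      ∑ y ∈ ONE_low S, Finsupp.single (insert (dn 1 y) (S.erase y)) (c * w (dn 1 y)) := by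
  unfold Low ONE_low
  rw [Finsupp.linearCombination_single, Finset.smul_sum]
  refine Finset.sum_congr rfl fun l _ => ?_
  rw [ONE_cnt, pow_zero, one_mul, Finsupp.smul_single, smul_eq_mul]

theorem ONE_nrm (S : St) (c : R) (u : St →₀ R) (h : u S = 0) :
    nrm (Finsupp.single S c + u) = c ^ 2 + nrm u := by
  classical
  unfold nrm
  rw [Finsupp.sum_add_index_of_disjoint]
  · rw [Finsupp.sum_single_index (by ring)]
  · rw [Finset.disjoint_left]
    intro S' h1 h2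
    have h3 := Finsupp.support_single_subset h1
    rw [Finset.mem_singleton] at h3
    rw [h3, Finsupp.mem_support_iff] at h2
    exact h2 h

theorem ONE_nrm1 (S : St) (c : R) : nrm (Finsupp.single S c) = c ^ 2 := by
  unfold nrm
  rw [Finsupp.sum_single_index (by ring)]

theorem ONE_GV (w : Lab → R) (n k : ℕ) (u : St →₀ R) (hu : GV n k u) : GV n (k + 1) (Rib w 1 u) := by
  classical
  intro S hS
  have h1 : Rib w 1 u = ∑ S' ∈ u.support, Rib w 1 (Finsupp.single S' (u S')) := by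
    conv_lhs => rw [← Finsupp.sum_single u]
    rw [Finsupp.sum, map_sum]
  rw [h1] at hS
  have h2 := Finsupp.support_finsetSum hS
  rw [Finset.mem_biUnion] at h2
  obtain ⟨S', hS', h3⟩ := h2
  rw [ONE_rib] at h3
  have h4 := Finsupp.support_finsetSum h3
  rw [Finset.mem_biUnion] at h4
  obtain ⟨l, hl, h5⟩ := h4
  have h6 := Finsupp.support_single_subset h5
  rw [Finset.mem_singleton] at h6
  rw [h6]
  exact SD_good_move (hu S' hS') hl

end one

/-! ### states with two free beads in each component -/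

/-- beads at the places `< p`, at `p + i`, `p + i'` in the first component and at `p + k`, `p + k'` in the
second one -/
def ONE_O (p i i' k k' : ℕ) : St :=
  vac p ∪ {(true, p + i), (true, p + i'), (false, p + k), (false, p + k')}

theorem ONE_mem_t (p i i' k k' q : ℕ) :
    (true, q) ∈ ONE_O p i i' k k' ↔ q < p ∨ q = p + i ∨ q = p + i' := by
  simp [ONE_O, vac]
  tauto

theorem ONE_mem_f (p i i' k k' q : ℕ) :
    (false, q) ∈ ONE_O p i i' k k' ↔ q < p ∨ q = p + k ∨ q = p + k' := by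
  simp [ONE_O, vac]
  tauto

theorem ONE_vac (p : ℕ) : vac (p + 2) = ONE_O p 0 1 0 1 := by
  ext ⟨b, q⟩
  cases b
  · rw [ONE_mem_f]; simp [vac]; omega
  · rw [ONE_mem_t]; simp [vac]; omega

theorem ONE_move (p i i' k k' j j' h h' : ℕ) (c : Bool) (r : ℕ)
    (ht : ∀ q, (q < p ∨ q = p + j ∨ q = p + j') ↔
      ((c = true ∧ q = r + 1) ∨ (¬ (c = true ∧ q = r) ∧ (q < p ∨ q = p + i ∨ q = p + i'))))
    (hf : ∀ q, (q < p ∨ q = p + h ∨ q = p + h') ↔
      ((c = false ∧ q = r + 1) ∨ (¬ (c = false ∧ q = r) ∧ (q < p ∨ q = p + k ∨ q = p + k')))) :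
    move 1 (ONE_O p i i' k k') (c, r) = ONE_O p j j' h h' := by
  ext ⟨b, q⟩
  cases b
  · rw [ONE_mem_f, hf]
    unfold move up
    rw [Finset.mem_insert, Finset.mem_erase, ONE_mem_f]
    simp only [Prod.mk.injEq, ne_eq]
    cases c <;> simp
  · rw [ONE_mem_t, ht]
    unfold move up
    rw [Finset.mem_insert, Finset.mem_erase, ONE_mem_t]
    simp only [Prod.mk.injEq, ne_eq]
    cases c <;> simp

theorem ONE_lower (p i i' k k' j j' h h' : ℕ) (c : Bool) (r : ℕ)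
    (ht : ∀ q, (q < p ∨ q = p + j ∨ q = p + j') ↔
      ((c = true ∧ q = r - 1) ∨ (¬ (c = true ∧ q = r) ∧ (q < p ∨ q = p + i ∨ q = p + i'))))
    (hf : ∀ q, (q < p ∨ q = p + h ∨ q = p + h') ↔
      ((c = false ∧ q = r - 1) ∨ (¬ (c = false ∧ q = r) ∧ (q < p ∨ q = p + k ∨ q = p + k')))) :
    insert (dn 1 (c, r)) ((ONE_O p i i' k k').erase (c, r)) = ONE_O p j j' h h' := by
  ext ⟨b, q⟩
  cases b
  · rw [ONE_mem_f, hf]
    unfold dn
    rw [Finset.mem_insert, Finset.mem_erase, ONE_mem_f]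
    simp only [Prod.mk.injEq, ne_eq]
    cases c <;> simp
  · rw [ONE_mem_t, ht]
    unfold dn
    rw [Finset.mem_insert, Finset.mem_erase, ONE_mem_t]
    simp only [Prod.mk.injEq, ne_eq]
    cases c <;> simp

theorem ONE_addable (p i i' k k' : ℕ) (s : Finset Lab)
    (ht : ∀ q, (true, q) ∈ s ↔ ((q < p ∨ q = p + i ∨ q = p + i') ∧
      ¬ (q + 1 < p ∨ q + 1 = p + i ∨ q + 1 = p + i')))
    (hf : ∀ q, (false, q) ∈ s ↔ ((q < p ∨ q = p + k ∨ q = p + k') ∧
      ¬ (q + 1 < p ∨ q + 1 = p + k ∨ q + 1 = p + k'))) :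
    addable 1 (ONE_O p i i' k k') = s := by
  ext ⟨b, q⟩
  unfold addable
  rw [Finset.mem_filter]
  cases b
  · rw [hf, ONE_mem_f]
    show _ ∧ (false, q + 1) ∉ _ ↔ _
    rw [ONE_mem_f]
  · rw [ht, ONE_mem_t]
    show _ ∧ (true, q + 1) ∉ _ ↔ _
    rw [ONE_mem_t]

theorem ONE_lowable (p i i' k k' : ℕ) (s : Finset Lab)
    (ht : ∀ q, (true, q) ∈ s ↔ ((q < p ∨ q = p + i ∨ q = p + i') ∧ 1 ≤ q ∧
      ¬ (q - 1 < p ∨ q - 1 = p + i ∨ q - 1 = p + i')))
    (hf : ∀ q, (false, q) ∈ s ↔ ((q < p ∨ q = p + k ∨ q = p + k') ∧ 1 ≤ q ∧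
      ¬ (q - 1 < p ∨ q - 1 = p + k ∨ q - 1 = p + k'))) :
    ONE_low (ONE_O p i i' k k') = s := by
  ext ⟨b, q⟩
  unfold ONE_low
  rw [Finset.mem_filter]
  cases b
  · rw [hf, ONE_mem_f]
    show _ ∧ 1 ≤ q ∧ (false, q - 1) ∉ _ ↔ _
    rw [ONE_mem_f]
  · rw [ht, ONE_mem_t]
    show _ ∧ 1 ≤ q ∧ (true, q - 1) ∉ _ ↔ _
    rw [ONE_mem_t]

/-! ### the moves -/

theorem ONE_addable_vac (p : ℕ) :
    addable 1 (ONE_O p 0 1 0 1) = {(true, p + 1), (false, p + 1)} := by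
  apply ONE_addable <;> intro q <;> simp <;> omega

theorem ONE_addable_T (p : ℕ) :
    addable 1 (ONE_O p 0 2 0 1) = {(true, p + 2), (true, p), (false, p + 1)} := by
  apply ONE_addable <;> intro q <;> simp <;> omega

theorem ONE_addable_F (p : ℕ) :
    addable 1 (ONE_O p 0 1 0 2) = {(true, p + 1), (false, p + 2), (false, p)} := by
  apply ONE_addable <;> intro q <;> simp <;> omega

/-- the vector of the type `(1, 1)` -/
theorem ONE_vec (p : ℕ) : vecT true (p + 2) [1, 1] =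
    Finsupp.single (ONE_O p 0 3 0 1) (X ^ 4) + (Finsupp.single (ONE_O p 1 2 0 1) (X ^ 2) +
    (Finsupp.single (ONE_O p 0 2 0 2) (-2 * X ^ 2) + (Finsupp.single (ONE_O p 0 1 0 3) (X ^ 2) +
    Finsupp.single (ONE_O p 0 1 1 2) 1))) := by
  have m1 : move 1 (ONE_O p 0 1 0 1) (true, p + 1) = ONE_O p 0 2 0 1 := by
    apply ONE_move <;> intro q <;> simp <;> omega
  have m2 : move 1 (ONE_O p 0 1 0 1) (false, p + 1) = ONE_O p 0 1 0 2 := by
    apply ONE_move <;> intro q <;> simp <;> omega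
  have m3 : move 1 (ONE_O p 0 2 0 1) (true, p + 2) = ONE_O p 0 3 0 1 := by
    apply ONE_move <;> intro q <;> simp <;> omega
  have m4 : move 1 (ONE_O p 0 2 0 1) (true, p) = ONE_O p 1 2 0 1 := by
    apply ONE_move <;> intro q <;> simp <;> omega
  have m5 : move 1 (ONE_O p 0 2 0 1) (false, p + 1) = ONE_O p 0 2 0 2 := by
    apply ONE_move <;> intro q <;> simp <;> omega
  have m6 : move 1 (ONE_O p 0 1 0 2) (true, p + 1) = ONE_O p 0 2 0 2 := by
    apply ONE_move <;> intro q <;> simp <;> omega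
  have m7 : move 1 (ONE_O p 0 1 0 2) (false, p + 2) = ONE_O p 0 1 0 3 := by
    apply ONE_move <;> intro q <;> simp <;> omega
  have m8 : move 1 (ONE_O p 0 1 0 2) (false, p) = ONE_O p 0 1 1 2 := by
    apply ONE_move <;> intro q <;> simp <;> omega
  unfold vecT
  rw [fockT, fockT, fockT, ONE_vac, ONE_rib, ONE_addable_vac, Finset.sum_pair (by simp), m1, m2,
    map_add, ONE_rib, ONE_rib, ONE_addable_T, ONE_addable_F]
  rw [Finset.sum_insert (by simp), Finset.sum_pair (by simp), Finset.sum_insert (by simp),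
    Finset.sum_pair (by simp), m3, m4, m5, m6, m7, m8]
  have w1 : wT true (p + 2) 0 1 (true, p + 1) = X := by
    unfold wT wq
    rw [if_pos rfl, if_pos rfl]
    have : 0 + 1 + (p + 1) + 1 - (p + 2) = 1 := by omega
    show X ^ (0 + 1 + (p + 1) + 1 - (p + 2)) = X
    rw [this, pow_one]
  have w2 : wT true (p + 2) 0 1 (false, p + 1) = -1 := by
    unfold wT wq
    rw [if_pos rfl, if_neg (by simp)]
    have : 0 + 1 + (p + 1) - (p + 2) = 0 := by omega
    show -X ^ (0 + 1 + (p + 1) - (p + 2)) = -1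
    rw [this, pow_zero]
  have w3 : ∀ q e, q + 3 = p + 2 + e → wT true (p + 2) (0 + 1) 1 (true, q) = X ^ e := by
    intro q e h
    unfold wT wq
    rw [if_pos rfl, if_pos rfl]
    show X ^ (0 + 1 + 1 + q + 1 - (p + 2)) = X ^ e
    congr 1; omega
  have w4 : ∀ q e, q + 2 = p + 2 + e → wT true (p + 2) (0 + 1) 1 (false, q) = -X ^ e := by
    intro q e h
    unfold wT wq
    rw [if_pos rfl, if_neg (by simp)]
    show -X ^ (0 + 1 + 1 + q - (p + 2)) = -X ^ e
    congr 2; omega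
  rw [w1, w2, w3 (p + 2) 3 (by omega), w3 p 1 (by omega), w4 (p + 1) 1 (by omega),
    w3 (p + 1) 2 (by omega), w4 (p + 2) 2 (by omega), w4 p 0 (by omega)]
  have e1 : (Finsupp.single (ONE_O p 0 2 0 2) (-2 * X ^ 2) : St →₀ ℤ[X]) =
      Finsupp.single (ONE_O p 0 2 0 2) (1 * X * -X ^ 1) +
      Finsupp.single (ONE_O p 0 2 0 2) (1 * -1 * X ^ 2) := by
    rw [← Finsupp.single_add]; congr 1; ring
  rw [e1]
  have e2 : (1 * X * X ^ 3 : ℤ[X]) = X ^ 4 := by ring
  have e3 : (1 * X * X ^ 1 : ℤ[X]) = X ^ 2 := by ring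
  have e4 : (1 * -1 * -X ^ 2 : ℤ[X]) = X ^ 2 := by ring
  have e5 : (1 * -1 * -X ^ 0 : ℤ[X]) = 1 := by ring
  rw [e2, e3, e4, e5]
  abel

theorem ONE_ne_of (p i i' k k' j j' h h' : ℕ) (hne : ¬ ∀ q : ℕ,
    ((q < p ∨ q = p + i ∨ q = p + i') ↔ (q < p ∨ q = p + j ∨ q = p + j')) ∧
    ((q < p ∨ q = p + k ∨ q = p + k') ↔ (q < p ∨ q = p + h ∨ q = p + h'))) :
    ONE_O p i i' k k' ≠ ONE_O p j j' h h' := by
  intro he
  apply hne
  intro q
  rw [← ONE_mem_t p i i' k k', ← ONE_mem_f p i i' k k', ← ONE_mem_t p j j' h h',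
    ← ONE_mem_f p j j' h h', he]
  exact ⟨Iff.rfl, Iff.rfl⟩

theorem ONE_nrm_vec (p : ℕ) : nrm (vecT true (p + 2) [1, 1]) = X ^ 8 + 6 * X ^ 4 + 1 := by
  have n12 : ONE_O p 1 2 0 1 ≠ ONE_O p 0 3 0 1 := ONE_ne_of _ _ _ _ _ _ _ _ _ fun h => by
    have := h (p + 3); omega
  have n13 : ONE_O p 0 2 0 2 ≠ ONE_O p 0 3 0 1 := ONE_ne_of _ _ _ _ _ _ _ _ _ fun h => by
    have := h (p + 3); omega
  have n14 : ONE_O p 0 1 0 3 ≠ ONE_O p 0 3 0 1 := ONE_ne_of _ _ _ _ _ _ _ _ _ fun h => by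
    have := h (p + 3); omega
  have n15 : ONE_O p 0 1 1 2 ≠ ONE_O p 0 3 0 1 := ONE_ne_of _ _ _ _ _ _ _ _ _ fun h => by
    have := h (p + 3); omega
  have n23 : ONE_O p 0 2 0 2 ≠ ONE_O p 1 2 0 1 := ONE_ne_of _ _ _ _ _ _ _ _ _ fun h => by
    have := h p; omega
  have n24 : ONE_O p 0 1 0 3 ≠ ONE_O p 1 2 0 1 := ONE_ne_of _ _ _ _ _ _ _ _ _ fun h => by
    have := h p; omega
  have n25 : ONE_O p 0 1 1 2 ≠ ONE_O p 1 2 0 1 := ONE_ne_of _ _ _ _ _ _ _ _ _ fun h => by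
    have := h p; omega
  have n34 : ONE_O p 0 1 0 3 ≠ ONE_O p 0 2 0 2 := ONE_ne_of _ _ _ _ _ _ _ _ _ fun h => by
    have := h (p + 3); omega
  have n35 : ONE_O p 0 1 1 2 ≠ ONE_O p 0 2 0 2 := ONE_ne_of _ _ _ _ _ _ _ _ _ fun h => by
    have := h p; omega
  have n45 : ONE_O p 0 1 1 2 ≠ ONE_O p 0 1 0 3 := ONE_ne_of _ _ _ _ _ _ _ _ _ fun h => by
    have := h p; omega
  rw [ONE_vec, ONE_nrm, ONE_nrm, ONE_nrm, ONE_nrm, ONE_nrm1]
  · ring
  · rw [Finsupp.single_eq_of_ne n45.symm]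
  · rw [Finsupp.add_apply, Finsupp.single_eq_of_ne n34.symm, Finsupp.single_eq_of_ne n35.symm,
      add_zero]
  · rw [Finsupp.add_apply, Finsupp.add_apply, Finsupp.single_eq_of_ne n23.symm,
      Finsupp.single_eq_of_ne n24.symm, Finsupp.single_eq_of_ne n25.symm]
    simp
  · rw [Finsupp.add_apply, Finsupp.add_apply, Finsupp.add_apply, Finsupp.single_eq_of_ne n12.symm,
      Finsupp.single_eq_of_ne n13.symm, Finsupp.single_eq_of_ne n14.symm,
      Finsupp.single_eq_of_ne n15.symm]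
    simp

theorem ONE_low_vec (p : ℕ) : Low (fun _ => (1 : ℤ[X])) 1 (vecT true (p + 2) [1, 1]) =
    Finsupp.single (ONE_O p 0 2 0 1) (X ^ 4 - X ^ 2) + Finsupp.single (ONE_O p 0 1 0 2) (1 - X ^ 2) := by
  have l1 : ONE_low (ONE_O p 0 3 0 1) = {(true, p + 3)} := by
    apply ONE_lowable <;> intro q <;> simp <;> omega
  have l2 : ONE_low (ONE_O p 1 2 0 1) = {(true, p + 1)} := by
    apply ONE_lowable <;> intro q <;> simp <;> omega
  have l3 : ONE_low (ONE_O p 0 2 0 2) = {(true, p + 2), (false, p + 2)} := by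
    apply ONE_lowable <;> intro q <;> simp <;> omega
  have l4 : ONE_low (ONE_O p 0 1 0 3) = {(false, p + 3)} := by
    apply ONE_lowable <;> intro q <;> simp <;> omega
  have l5 : ONE_low (ONE_O p 0 1 1 2) = {(false, p + 1)} := by
    apply ONE_lowable <;> intro q <;> simp <;> omega
  have m1 : insert (dn 1 (true, p + 3)) ((ONE_O p 0 3 0 1).erase (true, p + 3)) =
      ONE_O p 0 2 0 1 := by
    apply ONE_lower <;> intro q <;> simp <;> omega
  have m2 : insert (dn 1 (true, p + 1)) ((ONE_O p 1 2 0 1).erase (true, p + 1)) =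
      ONE_O p 0 2 0 1 := by
    apply ONE_lower <;> intro q <;> simp <;> omega
  have m3 : insert (dn 1 (true, p + 2)) ((ONE_O p 0 2 0 2).erase (true, p + 2)) =
      ONE_O p 0 1 0 2 := by
    apply ONE_lower <;> intro q <;> simp <;> omega
  have m3' : insert (dn 1 (false, p + 2)) ((ONE_O p 0 2 0 2).erase (false, p + 2)) =
      ONE_O p 0 2 0 1 := by
    apply ONE_lower <;> intro q <;> simp <;> omega
  have m4 : insert (dn 1 (false, p + 3)) ((ONE_O p 0 1 0 3).erase (false, p + 3)) =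
      ONE_O p 0 1 0 2 := by
    apply ONE_lower <;> intro q <;> simp <;> omega
  have m5 : insert (dn 1 (false, p + 1)) ((ONE_O p 0 1 1 2).erase (false, p + 1)) =
      ONE_O p 0 1 0 2 := by
    apply ONE_lower <;> intro q <;> simp <;> omega
  rw [ONE_vec, map_add, map_add, map_add, map_add, ONE_Low, ONE_Low, ONE_Low, ONE_Low, ONE_Low,
    l1, l2, l3, l4, l5, Finset.sum_singleton, Finset.sum_singleton, Finset.sum_pair (by simp),
    Finset.sum_singleton, Finset.sum_singleton, m1, m2, m3, m3', m4, m5]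
  have e1 : (Finsupp.single (ONE_O p 0 2 0 1) (X ^ 4 - X ^ 2) : St →₀ ℤ[X]) =
      Finsupp.single (ONE_O p 0 2 0 1) (X ^ 4 * 1) + Finsupp.single (ONE_O p 0 2 0 1) (X ^ 2 * 1) +
      Finsupp.single (ONE_O p 0 2 0 1) (-2 * X ^ 2 * 1) := by
    rw [← Finsupp.single_add, ← Finsupp.single_add]; congr 1; ring
  have e2 : (Finsupp.single (ONE_O p 0 1 0 2) (1 - X ^ 2) : St →₀ ℤ[X]) =
      Finsupp.single (ONE_O p 0 1 0 2) (-2 * X ^ 2 * 1) +
      Finsupp.single (ONE_O p 0 1 0 2) (X ^ 2 * 1) +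
      Finsupp.single (ONE_O p 0 1 0 2) (1 * 1) := by
    rw [← Finsupp.single_add, ← Finsupp.single_add]; congr 1; ring
  rw [e1, e2]
  abel

theorem ONE_nrm_low (p : ℕ) : nrm (Low (fun _ => (1 : ℤ[X])) 1 (vecT true (p + 2) [1, 1])) =
    (X ^ 4 - X ^ 2) ^ 2 + (1 - X ^ 2) ^ 2 := by
  have n12 : ONE_O p 0 1 0 2 ≠ ONE_O p 0 2 0 1 := ONE_ne_of _ _ _ _ _ _ _ _ _ fun h => by
    have := h (p + 2); omega
  rw [ONE_low_vec, ONE_nrm _ _ _ (Finsupp.single_eq_of_ne n12.symm), ONE_nrm1]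

theorem ONE_low2_vec (p : ℕ) : Low (fun _ => (1 : ℤ[X])) 1 (Low (fun _ => (1 : ℤ[X])) 1
    (vecT true (p + 2) [1, 1])) = Finsupp.single (ONE_O p 0 1 0 1) ((X ^ 2 - 1) ^ 2) := by
  have l1 : ONE_low (ONE_O p 0 2 0 1) = {(true, p + 2)} := by
    apply ONE_lowable <;> intro q <;> simp <;> omega
  have l2 : ONE_low (ONE_O p 0 1 0 2) = {(false, p + 2)} := by
    apply ONE_lowable <;> intro q <;> simp <;> omega
  have m1 : insert (dn 1 (true, p + 2)) ((ONE_O p 0 2 0 1).erase (true, p + 2)) =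
      ONE_O p 0 1 0 1 := by
    apply ONE_lower <;> intro q <;> simp <;> omega
  have m2 : insert (dn 1 (false, p + 2)) ((ONE_O p 0 1 0 2).erase (false, p + 2)) =
      ONE_O p 0 1 0 1 := by
    apply ONE_lower <;> intro q <;> simp <;> omega
  rw [ONE_low_vec, map_add, ONE_Low, ONE_Low, l1, l2, Finset.sum_singleton, Finset.sum_singleton,
    m1, m2, ← Finsupp.single_add]
  congr 1
  ring

theorem ONE_low3_vec (p : ℕ) : Low (fun _ => (1 : ℤ[X])) 1 (Low (fun _ => (1 : ℤ[X])) 1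
    (Low (fun _ => (1 : ℤ[X])) 1 (vecT true (p + 2) [1, 1]))) = 0 := by
  have l1 : ONE_low (ONE_O p 0 1 0 1) = ∅ := by
    apply ONE_lowable <;> intro q <;> simp <;> omega
  rw [ONE_low2_vec, ONE_Low, l1, Finset.sum_empty]

/-- the exceptional type `(1, 1)` -/
theorem ONE (hDL : DL_stmt) : ONE_stmt := by
  intro j hj
  have hGV : GV (2 + j) 2 (vecT true (2 + j) [1, 1]) := by
    have h0 : GV (2 + j) 0 (Finsupp.single (vac (2 + j)) (1 : ℤ[X])) := by
      intro S hS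
      have h := Finsupp.support_single_subset hS
      rw [Finset.mem_singleton] at h
      rw [h]
      exact SD_good_vac _
    unfold vecT
    rw [fockT, fockT, fockT]
    exact ONE_GV _ _ 1 _ (ONE_GV _ _ 0 _ h0)
  unfold PU
  rw [hDL ℤ[X] (fun _ => 1) (fun _ => by ring) (2 + j) 2 1 j _ le_rfl hGV (by omega)]
  set u := vecT true (2 + j) [1, 1] with hu
  have hu' : u = vecT true (j + 2) [1, 1] := by rw [hu, Nat.add_comm]
  set L := Low (fun _ => (1 : ℤ[X])) 1 with hL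
  have c0 : (nrm ((L ^ 0) u)).coeff 2 = 0 := by
    rw [pow_zero, Module.End.one_apply, hu', ONE_nrm_vec]
    simp [Polynomial.coeff_X_pow, Polynomial.coeff_one]
  have c1 : (nrm ((L ^ 1) u)).coeff 2 = -2 := by
    rw [pow_one, hu', hL, ONE_nrm_low]
    have : ((X ^ 4 - X ^ 2) ^ 2 + (1 - X ^ 2) ^ 2 : ℤ[X]) =
        X ^ 8 - 2 * X ^ 6 + 2 * X ^ 4 - 2 * X ^ 2 + 1 := by ring
    rw [this]
    simp [Polynomial.coeff_X_pow, Polynomial.coeff_one]
  have c2 : (nrm ((L ^ 2) u)).coeff 2 = -4 := by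
    rw [pow_two, Module.End.mul_apply, hu', hL, ONE_low2_vec, ONE_nrm1]
    have : (((X ^ 2 - 1) ^ 2) ^ 2 : ℤ[X]) =
        X ^ 8 - 4 * X ^ 6 + 6 * X ^ 4 - 4 * X ^ 2 + 1 := by ring
    rw [this]
    simp [Polynomial.coeff_X_pow, Polynomial.coeff_one]
  have c3 : ∀ i, 3 ≤ i → (nrm ((L ^ i) u)).coeff 2 = 0 := by
    intro i hi
    obtain ⟨k, rfl⟩ := Nat.exists_eq_add_of_le hi
    have h3 : (L ^ 3) u = 0 := by
      rw [pow_succ, pow_two, Module.End.mul_apply, Module.End.mul_apply, hu', hL, ONE_low3_vec]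
    rw [Nat.add_comm, pow_add, Module.End.mul_apply, h3, map_zero]
    simp [nrm]
  rw [Polynomial.finsetSum_coeff]
  refine Finset.sum_neg' (fun i _ => ?_) ⟨1, by rw [Finset.mem_range]; omega, ?_⟩
  · rw [Polynomial.coeff_natCast_mul]
    have h1 : (0 : ℤ) ≤ (((j.choose i) ^ 2 * (j - i).factorial * (2 * 1) ^ (j - i) : ℕ) : ℤ) :=
      Int.natCast_nonneg _
    have h2 : (nrm ((L ^ i) u)).coeff 2 ≤ 0 := by
      rcases i with _ | _ | _ | i
      · rw [c0]
      · rw [c1]; norm_num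
      · rw [c2]; norm_num
      · rw [c3 _ (by omega)]
    exact mul_nonpos_of_nonneg_of_nonpos h1 h2
  · rw [Polynomial.coeff_natCast_mul, c1]
    have h1 : (0 : ℤ) < (((j.choose 1) ^ 2 * (j - 1).factorial * (2 * 1) ^ (j - 1) : ℕ) : ℤ) := by
      have : 0 < (j.choose 1) ^ 2 * (j - 1).factorial * (2 * 1) ^ (j - 1) := by
        rw [Nat.choose_one_right]
        have := Nat.factorial_pos (j - 1)
        positivity
      exact_mod_cast this
    nlinarith

end Pool.Agent.helper27.PC
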